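import Pool.Agent.W78.EC.Defs2

/-!
# Project EC, part D3: the entropy of random trees
-/

set_option autoImplicit false

namespace Pool.Agent.W327.EC

open Pool.Agent.W78.EC

/-- the weight of a tree -/
noncomputable def qt {A : Type} (M : ℝ) : Tr A → ℝ
  | .leaf => 1 / 2
  | .node _ l r => 1 / 2 * (1 / M) * (qt M l * qt M r)

lemma qt_pos {A : Type} {M : ℝ} (hM : 0 < M) (T : Tr A) : 0 < qt M T := by
  induction T with
  | leaf => norm_num [qt]
  | node a l r hl hr =>
    unfold qt
    positivity

lemma log_qt {A : Type} {M : ℝ} (hM : 0 < M) (T : Tr A) :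
    -Real.log (qt M T) = (2 * (T.size : ℝ) + 1) * Real.log 2 + T.size * Real.log M := by
  induction T with
  | leaf =>
    simp [qt, Tr.size]
  | node a l r hl hr =>
    have h1 := qt_pos hM l
    have h2 := qt_pos hM r
    unfold qt
    rw [Real.log_mul (by positivity) (by positivity), Real.log_mul (by norm_num) (by positivity),
      Real.log_mul h1.ne' h2.ne']
    have h3 : Real.log (qt M l) = -((2 * (l.size : ℝ) + 1) * Real.log 2 + l.size * Real.log M) := by
      linarith
    have h4 : Real.log (qt M r) = -((2 * (r.size : ℝ) + 1) * Real.log 2 + r.size * Real.log M) := by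
      linarith
    rw [h3, h4]
    simp only [one_div, Real.log_inv, Tr.size]
    push_cast
    ring

open Classical in
/-- the trees of depth at most `h` -/
noncomputable def trs (A : Type) [Fintype A] : ℕ → Finset (Tr A)
  | 0 => {.leaf}
  | h + 1 => insert .leaf ((Finset.univ ×ˢ (trs A h ×ˢ trs A h)).image
      fun x : A × (Tr A × Tr A) => Tr.node x.1 x.2.1 x.2.2)

lemma trs_mono (A : Type) [Fintype A] (h : ℕ) : trs A h ⊆ trs A (h + 1) := by
  classical
  induction h with
  | zero =>
    intro T hT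
    simp only [trs, Finset.mem_singleton] at hT
    simp [trs, hT]
  | succ h ih =>
    intro T hT
    simp only [trs, Finset.mem_insert, Finset.mem_image, Finset.mem_product, Finset.mem_univ,
      true_and] at hT ih ⊢
    rcases hT with rfl | ⟨⟨a, l, r⟩, ⟨h1, h2⟩, rfl⟩
    · exact Or.inl rfl
    · refine Or.inr ⟨⟨a, l, r⟩, ⟨?_, ?_⟩, rfl⟩
      · have := ih h1
        simpa only [trs, Finset.mem_insert, Finset.mem_image, Finset.mem_product, Finset.mem_univ,
          true_and] using this
      · have := ih h2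
        simpa only [trs, Finset.mem_insert, Finset.mem_image, Finset.mem_product, Finset.mem_univ,
          true_and] using this

lemma trs_mono' (A : Type) [Fintype A] {h h' : ℕ} (hh : h ≤ h') : trs A h ⊆ trs A h' := by
  induction hh with
  | refl => exact le_rfl
  | step _ ih => exact ih.trans (trs_mono A _)

lemma mem_trs {A : Type} [Fintype A] (T : Tr A) : ∃ h, T ∈ trs A h := by
  classical
  induction T with
  | leaf => exact ⟨0, by simp [trs]⟩
  | node a l r hl hr =>
    obtain ⟨h1, h1'⟩ := hl
    obtain ⟨h2, h2'⟩ := hr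
    refine ⟨max h1 h2 + 1, ?_⟩
    simp only [trs, Finset.mem_insert, Finset.mem_image, Finset.mem_product, Finset.mem_univ,
      true_and]
    exact Or.inr ⟨⟨a, l, r⟩, ⟨trs_mono' A (le_max_left _ _) h1',
      trs_mono' A (le_max_right _ _) h2'⟩, rfl⟩

lemma sum_trs (A : Type) [Fintype A] (h : ℕ) :
    ∑ T ∈ trs A h, qt ((Fintype.card A : ℝ) + 1) T ≤ 1 := by
  classical
  have hM : (0 : ℝ) < (Fintype.card A : ℝ) + 1 := by positivity
  induction h with
  | zero =>
    simp only [trs, Finset.sum_singleton, qt]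
    norm_num
  | succ h ih =>
    have h0 : 0 ≤ ∑ T ∈ trs A h, qt ((Fintype.card A : ℝ) + 1) T :=
      Finset.sum_nonneg fun T _ => (qt_pos hM T).le
    simp only [trs]
    rw [Finset.sum_insert (by simp), Finset.sum_image (by
      rintro ⟨a, l, r⟩ _ ⟨a', l', r'⟩ _ h1
      simp only [Tr.node.injEq] at h1
      obtain ⟨rfl, rfl, rfl⟩ := h1
      rfl), Finset.sum_product]
    simp only [qt]
    have h2 : ∀ a : A, ∑ y ∈ trs A h ×ˢ trs A h, (1 / 2 * (1 / ((Fintype.card A : ℝ) + 1)) *
        (qt ((Fintype.card A : ℝ) + 1) y.1 * qt ((Fintype.card A : ℝ) + 1) y.2)) =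
        1 / 2 * (1 / ((Fintype.card A : ℝ) + 1)) *
          (∑ T ∈ trs A h, qt ((Fintype.card A : ℝ) + 1) T) ^ 2 := by
      intro a
      rw [← Finset.mul_sum, sq, Finset.sum_mul_sum, ← Finset.sum_product']
    rw [Finset.sum_congr rfl fun a _ => h2 a, Finset.sum_const, nsmul_eq_mul, Finset.card_univ]
    have h3 : (∑ T ∈ trs A h, qt ((Fintype.card A : ℝ) + 1) T) ^ 2 ≤ 1 := by
      nlinarith
    have h4 : (Fintype.card A : ℝ) * (1 / 2 * (1 / ((Fintype.card A : ℝ) + 1)) *
        (∑ T ∈ trs A h, qt ((Fintype.card A : ℝ) + 1) T) ^ 2) ≤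
        (Fintype.card A : ℝ) * (1 / 2 * (1 / ((Fintype.card A : ℝ) + 1)) * 1) := by
      gcongr
    have h5 : (Fintype.card A : ℝ) * (1 / 2 * (1 / ((Fintype.card A : ℝ) + 1)) * 1) ≤ 1 / 2 := by
      rw [mul_one]
      field_simp
      linarith
    linarith

theorem code (h : S_CE) : S_CODE := by
  intro A _
  have hM : (0 : ℝ) < (Fintype.card A : ℝ) + 1 := by positivity
  have hlM : 0 ≤ Real.log ((Fintype.card A : ℝ) + 1) := Real.log_nonneg (by
    have : (0 : ℝ) ≤ (Fintype.card A : ℝ) := by positivity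
    linarith)
  have hl2 : 0 < Real.log 2 := Real.log_pos (by norm_num)
  refine ⟨2 * Real.log 2 + Real.log ((Fintype.card A : ℝ) + 1), by positivity, ?_⟩
  intro Ω s w T hw
  have h1 := (h Ω (Tr A) Unit Unit s w T (fun _ => ()) (fun _ => ()) hw).2.2.2.2.2.2.2
    (qt ((Fintype.card A : ℝ) + 1)) (qt_pos hM) (by
      classical
      have h2 : ∃ d, s.image T ⊆ trs A d := by
        generalize s.image T = F
        induction F using Finset.induction_on with
        | empty => exact ⟨0, by simp⟩
        | insert a F _ ih =>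
          obtain ⟨d, hd⟩ := ih
          obtain ⟨d', hd'⟩ := mem_trs a
          refine ⟨max d d', ?_⟩
          rw [Finset.insert_subset_iff]
          exact ⟨trs_mono' A (le_max_right _ _) hd', hd.trans (trs_mono' A (le_max_left _ _))⟩
      obtain ⟨d, hd⟩ := h2
      refine le_trans (Finset.sum_le_sum_of_subset_of_nonneg (t := trs A d) ?_ ?_) (sum_trs A d)
      · intro x hx
        apply hd
        convert hx
      · exact fun T _ _ => (qt_pos hM T).le)
  refine h1.trans ?_
  rw [Finset.mul_sum]
  refine Finset.sum_le_sum fun ω hω => ?_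
  rw [log_qt hM]
  have h3 := hw ω hω
  have h4 : (2 * ((T ω).size : ℝ) + 1) * Real.log 2 +
      (T ω).size * Real.log ((Fintype.card A : ℝ) + 1) ≤
      (2 * Real.log 2 + Real.log ((Fintype.card A : ℝ) + 1)) * (1 + ((T ω).size : ℝ)) := by
    nlinarith
  calc w ω * ((2 * ((T ω).size : ℝ) + 1) * Real.log 2 +
      (T ω).size * Real.log ((Fintype.card A : ℝ) + 1))
      ≤ w ω * ((2 * Real.log 2 + Real.log ((Fintype.card A : ℝ) + 1)) *
        (1 + ((T ω).size : ℝ))) := mul_le_mul_of_nonneg_left h4 h3
    _ = _ := by ring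

end Pool.Agent.W327.EC
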