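import Pool.Agent.W78.EC.Defs4

/-!
Project EC (helper78), piece EC-G5: the final statement.
-/

set_option autoImplicit false

namespace Pool.Agent.W327.ECFinal

open Finset Filter
open Pool.Agent.H376R2.MR
open Pool.Agent.W78.GA
open Pool.Agent.W78.EC

lemma lam_mul {m n : ℕ} (hm : m ≠ 0) (hn : n ≠ 0) : lam (m * n) = lam m * lam n := by
  unfold lam
  rw [ArithmeticFunction.cardFactors_mul hm hn, pow_add]

lemma lam_pm (n : ℕ) : lam n = 1 ∨ lam n = -1 := by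
  unfold lam
  exact neg_one_pow_eq_or ℤ _

open scoped Classical in
lemma SP_mem {N : ℕ} {p : ℕ × ℕ} (hp : p ∈ SP N) :
    1 ≤ p.1 ∧ p.1 ≤ N ∧ 1 ≤ p.2 ∧ p.2 ≤ N ∧ ∃ n : ℕ, p.1 * p.2 = n ^ 2 + 1 := by
  unfold SP at hp
  rw [mem_filter, mem_product, mem_Icc, mem_Icc] at hp
  exact ⟨hp.1.1.1, hp.1.1.2, hp.1.2.1, hp.1.2.2, hp.2⟩

open scoped Classical in
lemma mem_SP {N : ℕ} {p : ℕ × ℕ} : p ∈ SP N ↔
    1 ≤ p.1 ∧ p.1 ≤ N ∧ 1 ≤ p.2 ∧ p.2 ≤ N ∧ ∃ n : ℕ, p.1 * p.2 = n ^ 2 + 1 := by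
  constructor
  · exact SP_mem
  · rintro ⟨h1, h2, h3, h4, h5⟩
    unfold SP
    rw [mem_filter, mem_product, mem_Icc, mem_Icc]
    exact ⟨⟨⟨h1, h2⟩, ⟨h3, h4⟩⟩, h5⟩

lemma SP_swap (N : ℕ) (f : ℕ → ℕ → ℝ) :
    ∑ p ∈ SP N, f p.1 p.2 = ∑ p ∈ SP N, f p.2 p.1 := by
  refine Finset.sum_nbij' Prod.swap Prod.swap ?_ ?_ ?_ ?_ ?_
  · intro p hp
    rw [mem_SP] at hp ⊢
    obtain ⟨h1, h2, h3, h4, n, h5⟩ := hp
    exact ⟨h3, h4, h1, h2, n, by rw [← h5]; exact Nat.mul_comm _ _⟩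
  · intro p hp
    rw [mem_SP] at hp ⊢
    obtain ⟨h1, h2, h3, h4, n, h5⟩ := hp
    exact ⟨h3, h4, h1, h2, n, by rw [← h5]; exact Nat.mul_comm _ _⟩
  · intro p _; rfl
  · intro p _; rfl
  · intro p _; rfl

/-! ### Part 1 -/

lemma ind_eq (e₁ e₂ : ℤ) (h₁ : e₁ = 1 ∨ e₁ = -1) (h₂ : e₂ = 1 ∨ e₂ = -1) (a b : ℤ)
    (ha : a = 1 ∨ a = -1) (hb : b = 1 ∨ b = -1) (w : ℝ) :
    (if a = e₁ ∧ b = e₂ then w else 0) =
      (w + e₁ * ((a : ℝ) * w) + e₂ * ((b : ℝ) * w) + e₁ * e₂ * ((a : ℝ) * b * w)) / 4 := by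
  rcases h₁ with rfl | rfl <;> rcases h₂ with rfl | rfl <;> rcases ha with rfl | rfl <;>
    rcases hb with rfl | rfl <;> norm_num <;> ring

open scoped Classical in
lemma part1 (h1 : S_FIN1) (h2 : S_SLOW) :
    ∀ e₁ e₂ : ℤ, (e₁ = 1 ∨ e₁ = -1) → (e₂ = 1 ∨ e₂ = -1) → Tendsto (fun N : ℕ =>
    (∑ p ∈ (SP N).filter (fun p => lam p.1 = e₁ ∧ lam p.2 = e₂), 1 / (max p.1 p.2 : ℝ)) /
    ∑ p ∈ SP N, 1 / (max p.1 p.2 : ℝ)) atTop (nhds (1 / 4)) := by
  intro e₁ e₂ he₁ he₂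
  obtain ⟨c, hc, hW⟩ := h2
  -- the three sums
  set W : ℕ → ℝ := fun N => ∑ p ∈ SP N, 1 / (max p.1 p.2 : ℝ) with hWdef
  set A : ℕ → ℝ := fun N => ∑ p ∈ SP N, (lam p.1 : ℝ) ^ 0 * lam p.2 / (max p.1 p.2 : ℝ) with hA
  set B : ℕ → ℝ := fun N => ∑ p ∈ SP N, (lam p.1 : ℝ) ^ 1 * lam p.2 / (max p.1 p.2 : ℝ) with hB
  have hA0 : Tendsto (fun N => A N / Real.log N) atTop (nhds 0) := h1 0
  have hB0 : Tendsto (fun N => B N / Real.log N) atTop (nhds 0) := h1 1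
  have key : ∀ N : ℕ, (∑ p ∈ (SP N).filter (fun p => lam p.1 = e₁ ∧ lam p.2 = e₂),
      1 / (max p.1 p.2 : ℝ)) = (W N + e₁ * A N + e₂ * A N + e₁ * e₂ * B N) / 4 := by
    intro N
    have hA' : A N = ∑ p ∈ SP N, (lam p.1 : ℝ) * (1 / (max p.1 p.2 : ℝ)) := by
      have := SP_swap N (fun a b => (lam b : ℝ) * (1 / (max a b : ℝ)))
      simp only [hA, pow_zero, one_mul]
      calc ∑ p ∈ SP N, (lam p.2 : ℝ) / (max p.1 p.2 : ℝ) =
          ∑ p ∈ SP N, (lam p.2 : ℝ) * (1 / (max p.1 p.2 : ℝ)) :=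
            Finset.sum_congr rfl fun p _ => by rw [mul_one_div]
        _ = ∑ p ∈ SP N, (lam p.1 : ℝ) * (1 / (max p.2 p.1 : ℝ)) := this
        _ = _ := Finset.sum_congr rfl fun p _ => by rw [max_comm]
    have hA'' : A N = ∑ p ∈ SP N, (lam p.2 : ℝ) * (1 / (max p.1 p.2 : ℝ)) := by
      simp only [hA, pow_zero, one_mul]
      exact Finset.sum_congr rfl fun p _ => by rw [mul_one_div]
    have hB' : B N = ∑ p ∈ SP N, (lam p.1 : ℝ) * lam p.2 * (1 / (max p.1 p.2 : ℝ)) := by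
      simp only [hB, pow_one]
      exact Finset.sum_congr rfl fun p _ => by rw [mul_one_div]
    rw [Finset.sum_filter]
    have : ∀ p ∈ SP N, (if lam p.1 = e₁ ∧ lam p.2 = e₂ then 1 / (max p.1 p.2 : ℝ) else 0) =
      ((1 / (max p.1 p.2 : ℝ)) + e₁ * ((lam p.1 : ℝ) * (1 / (max p.1 p.2 : ℝ))) +
        e₂ * ((lam p.2 : ℝ) * (1 / (max p.1 p.2 : ℝ))) +
        e₁ * e₂ * ((lam p.1 : ℝ) * lam p.2 * (1 / (max p.1 p.2 : ℝ)))) / 4 := fun p _ =>
      ind_eq e₁ e₂ he₁ he₂ _ _ (lam_pm _) (lam_pm _) _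
    rw [Finset.sum_congr rfl this, ← Finset.sum_div, Finset.sum_add_distrib,
      Finset.sum_add_distrib, Finset.sum_add_distrib, ← Finset.mul_sum, ← Finset.mul_sum,
      ← Finset.mul_sum, ← hA', ← hA'', ← hB']
  have sq : ∀ D : ℕ → ℝ, Tendsto (fun N : ℕ => D N / Real.log N) atTop (nhds 0) →
      Tendsto (fun N : ℕ => D N / W N) atTop (nhds 0) := by
    intro D hD
    have h3 : Tendsto (fun N : ℕ => |D N / Real.log N| * c⁻¹) atTop (nhds 0) := by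
      have := (hD.abs).mul_const c⁻¹
      simpa using this
    refine squeeze_zero_norm' ?_ h3
    filter_upwards [eventually_ge_atTop 2] with N hN
    have hlog : 0 < Real.log N := Real.log_pos (by exact_mod_cast hN)
    have hWN := hW N hN
    have hWpos : 0 < W N := lt_of_lt_of_le (mul_pos hc hlog) hWN
    rw [Real.norm_eq_abs, abs_div, abs_div, abs_of_pos hWpos, abs_of_pos hlog, div_mul_eq_mul_div,
      div_le_div_iff₀ hWpos hlog, mul_assoc]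
    apply mul_le_mul_of_nonneg_left _ (abs_nonneg _)
    have h5 : c * Real.log N ≤ W N := hWN
    calc Real.log N = c⁻¹ * (c * Real.log N) := by field_simp
      _ ≤ c⁻¹ * W N := mul_le_mul_of_nonneg_left h5 (inv_nonneg.2 hc.le)
  have hA1 := sq A hA0
  have hB1 := sq B hB0
  have h4 : Tendsto (fun N : ℕ => (1 + e₁ * (A N / W N) + e₂ * (A N / W N) +
      e₁ * e₂ * (B N / W N)) / 4) atTop (nhds (1 / 4)) := by
    have := ((((tendsto_const_nhds (x := (1 : ℝ))).add (hA1.const_mul (e₁ : ℝ))).add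
      (hA1.const_mul (e₂ : ℝ))).add (hB1.const_mul ((e₁ : ℝ) * e₂))).div_const 4
    simpa using this
  refine h4.congr' ?_
  filter_upwards [eventually_ge_atTop 2] with N hN
  have hlog : 0 < Real.log N := Real.log_pos (by exact_mod_cast hN)
  have hWN := hW N hN
  have hWpos : 0 < W N := lt_of_lt_of_le (mul_pos hc hlog) hWN
  have hW0 : W N ≠ 0 := hWpos.ne'
  rw [key N]
  change _ = (W N + e₁ * A N + e₂ * A N + e₁ * e₂ * B N) / 4 / W N
  field_simp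

/-! ### Part 2 -/

open scoped Classical in
/-- the pairs of the factorisations of `n ^ 2 + 1`, `1 ≤ n ≤ N` -/
noncomputable def TP (N : ℕ) : Finset (ℕ × ℕ) :=
  ((Icc 1 (N ^ 2 + 1)) ×ˢ (Icc 1 (N ^ 2 + 1))).filter
    (fun p => ∃ n : ℕ, 1 ≤ n ∧ n ≤ N ∧ p.1 * p.2 = n ^ 2 + 1)

open scoped Classical in
lemma mem_TP {N : ℕ} {p : ℕ × ℕ} : p ∈ TP N ↔ ∃ n : ℕ, 1 ≤ n ∧ n ≤ N ∧ p.1 * p.2 = n ^ 2 + 1 := by
  unfold TP
  rw [mem_filter, mem_product, mem_Icc, mem_Icc]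
  constructor
  · exact fun h => h.2
  · intro h
    refine ⟨?_, h⟩
    obtain ⟨n, h1, h2, h3⟩ := h
    have h4 : n ^ 2 ≤ N ^ 2 := Nat.pow_le_pow_left h2 2
    have h5 : 1 ≤ p.1 := Nat.one_le_iff_ne_zero.2 (by rintro h; rw [h] at h3; omega)
    have h6 : 1 ≤ p.2 := Nat.one_le_iff_ne_zero.2 (by rintro h; rw [h] at h3; omega)
    have h7 : p.1 ≤ p.1 * p.2 := Nat.le_mul_of_pos_right _ h6
    have h8 : p.2 ≤ p.1 * p.2 := Nat.le_mul_of_pos_left _ h5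
    exact ⟨⟨h5, by omega⟩, ⟨h6, by omega⟩⟩

lemma sqrt_sq_add_one {n : ℕ} (hn : 1 ≤ n) : Nat.sqrt (n ^ 2 + 1) = n := by
  have h1 : n ≤ Nat.sqrt (n ^ 2 + 1) := Nat.le_sqrt'.2 (by omega)
  have h2 : Nat.sqrt (n ^ 2 + 1) < n + 1 := Nat.sqrt_lt'.2 (by nlinarith)
  omega

lemma sum_TP (N : ℕ) (F : ℕ → ℕ → ℝ) :
    ∑ n ∈ Icc 1 N, ∑ d ∈ Nat.divisors (n ^ 2 + 1), F d ((n ^ 2 + 1) / d) =
      ∑ p ∈ TP N, F p.1 p.2 := by
  rw [Finset.sum_sigma']
  refine Finset.sum_nbij' (fun x => (x.2, (x.1 ^ 2 + 1) / x.2))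
    (fun p => ⟨Nat.sqrt (p.1 * p.2), p.1⟩) ?_ ?_ ?_ ?_ ?_
  · rintro ⟨n, d⟩ hx
    rw [mem_sigma, mem_Icc] at hx
    simp only at hx
    rw [mem_TP]
    exact ⟨n, hx.1.1, hx.1.2, Nat.mul_div_cancel' (Nat.dvd_of_mem_divisors hx.2)⟩
  · rintro ⟨a, b⟩ hp
    rw [mem_TP] at hp
    obtain ⟨n, h1, h2, h3⟩ := hp
    simp only at h3
    rw [mem_sigma, mem_Icc]
    simp only
    rw [h3, sqrt_sq_add_one h1]
    refine ⟨⟨h1, h2⟩, ?_⟩
    rw [Nat.mem_divisors]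
    exact ⟨⟨b, h3.symm⟩, by omega⟩
  · rintro ⟨n, d⟩ hx
    rw [mem_sigma, mem_Icc] at hx
    simp only at hx
    simp only
    rw [Nat.mul_div_cancel' (Nat.dvd_of_mem_divisors hx.2), sqrt_sq_add_one hx.1.1]
  · rintro ⟨a, b⟩ hp
    rw [mem_TP] at hp
    obtain ⟨n, h1, h2, h3⟩ := hp
    simp only at h3
    simp only
    rw [h3, sqrt_sq_add_one h1, ← h3]
    have ha : 0 < a := Nat.pos_of_ne_zero (by rintro rfl; omega)
    rw [Nat.mul_div_cancel_left _ ha]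
  · rintro ⟨n, d⟩ _
    rfl

lemma SP_sub (N : ℕ) : (SP N).erase (1, 1) ⊆ TP N := by
  rintro ⟨a, b⟩ hp
  rw [mem_erase, mem_SP] at hp
  obtain ⟨hne, h1, h2, h3, h4, n, h5⟩ := hp
  simp only at h1 h2 h3 h4 h5
  rw [mem_TP]
  refine ⟨n, ?_, ?_, h5⟩
  · by_contra h
    have hn : n = 0 := by omega
    rw [hn] at h5
    simp only [ne_eq, OfNat.ofNat_ne_zero, not_false_eq_true, zero_pow, zero_add] at h5
    have h6 := Nat.eq_one_of_mul_eq_one_right h5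
    have h7 := Nat.eq_one_of_mul_eq_one_left h5
    exact hne (by rw [h6, h7])
  · by_contra h
    have h6 : a * b ≤ N * N := Nat.mul_le_mul h2 h4
    nlinarith

lemma one_notMem_TP (N : ℕ) : ((1, 1) : ℕ × ℕ) ∉ TP N := by
  rw [mem_TP]
  rintro ⟨n, h1, _, h3⟩
  simp only at h3
  have : 1 ≤ n ^ 2 := Nat.one_le_pow _ _ h1
  omega

open scoped Classical in
lemma tail2 (h3 : S_SCNT) : ∃ C : ℝ, 0 ≤ C ∧ ∀ N : ℕ, 1 ≤ N →
    ∑ p ∈ (TP N).filter (fun p => N < p.2), 1 / (max p.1 p.2 : ℝ) ≤ C := by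
  obtain ⟨C, hC⟩ := h3
  have hC0 : 0 ≤ C := by
    have := hC 1 1 le_rfl le_rfl
    simp only [Nat.cast_one, mul_one, Real.sqrt_one] at this
    exact le_trans (Nat.cast_nonneg _) this
  refine ⟨2 * C * 2, by positivity, fun N hN => ?_⟩
  set U := (TP N).filter (fun p => N < p.2) with hU
  set g : ℕ × ℕ → ℕ := fun p => Nat.log 2 ((p.2 - 1) / N) with hg
  have hNpos : (0 : ℝ) < N := by exact_mod_cast hN
  rw [← Finset.sum_fiberwise_of_maps_to (t := U.image g) (g := g)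
    (fun p hp => mem_image_of_mem g hp)]
  have cell : ∀ k ∈ U.image g, ∑ p ∈ U with g p = k, 1 / (max p.1 p.2 : ℝ) ≤
      2 * C * (1 / 2) ^ k := by
    intro k _
    set V := U.filter (fun p => g p = k) with hV
    -- membership
    have hmem : ∀ p ∈ V, 2 ^ k * N + 1 ≤ p.2 ∧ p.2 ≤ 2 ^ (k + 1) * N ∧ 1 ≤ p.1 ∧
        p.1 ≤ 2 * N / 2 ^ k ∧ ∃ n : ℕ, p.1 * p.2 = n ^ 2 + 1 := by
      intro p hp
      rw [hV, mem_filter, hU, mem_filter, mem_TP] at hp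
      obtain ⟨⟨⟨n, hn1, hn2, hn3⟩, hp2⟩, hp3⟩ := hp
      have h0 : (p.2 - 1) / N ≠ 0 := by
        rw [Nat.div_ne_zero_iff]
        omega
      have h4 : 2 ^ k ≤ (p.2 - 1) / N := by
        rw [← hp3]
        exact Nat.pow_log_le_self 2 h0
      have h5 : (p.2 - 1) / N < 2 ^ (k + 1) := by
        rw [← hp3]
        exact Nat.lt_pow_succ_log_self (by norm_num) _
      have h6 : 2 ^ k * N ≤ p.2 - 1 := (Nat.le_div_iff_mul_le (by omega)).1 h4
      have h7 : p.2 - 1 < 2 ^ (k + 1) * N := (Nat.div_lt_iff_lt_mul (by omega)).1 h5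
      have h8 : n ^ 2 ≤ N ^ 2 := Nat.pow_le_pow_left hn2 2
      have hp1 : 1 ≤ p.1 := Nat.one_le_iff_ne_zero.2 (by rintro h; rw [h] at hn3; omega)
      refine ⟨by omega, by omega, hp1, ?_, n, hn3⟩
      rw [Nat.le_div_iff_mul_le (by positivity)]
      by_contra hcon
      have h9 : 2 * N + 1 ≤ p.1 * 2 ^ k := by omega
      have h10 : p.1 * (2 ^ k * N + 1) ≤ p.1 * p.2 := Nat.mul_le_mul_left _ (by omega)
      have h11 : (2 * N + 1) * N ≤ p.1 * 2 ^ k * N := Nat.mul_le_mul_right _ h9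
      nlinarith
    have hterm : ∀ p ∈ V, 1 / (max p.1 p.2 : ℝ) ≤ 1 / ((2 : ℝ) ^ k * N) := by
      intro p hp
      obtain ⟨h4, _⟩ := hmem p hp
      apply one_div_le_one_div_of_le (by positivity)
      refine le_trans ?_ (le_max_right _ _)
      have : 2 ^ k * N ≤ p.2 := by omega
      exact_mod_cast this
    rcases Nat.eq_zero_or_pos (2 * N / 2 ^ k) with hm | hm
    · have hVe : V = ∅ := by
        rw [Finset.eq_empty_iff_forall_notMem]
        intro p hp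
        obtain ⟨_, _, h6, h7, _⟩ := hmem p hp
        omega
      rw [hVe, Finset.sum_empty]
      positivity
    · have hle : 2 * N / 2 ^ k ≤ 2 ^ (k + 1) * N := by
        calc 2 * N / 2 ^ k ≤ 2 * N := Nat.div_le_self _ _
          _ ≤ 2 ^ (k + 1) * N := by
            apply Nat.mul_le_mul_right
            calc 2 = 2 ^ 1 := rfl
              _ ≤ 2 ^ (k + 1) := Nat.pow_le_pow_right (by norm_num) (by omega)
      have hc := hC _ _ hm hle
      have hcard : (V.card : ℝ) ≤ C * Real.sqrt (((2 * N / 2 ^ k : ℕ) : ℝ) *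
          ((2 ^ (k + 1) * N : ℕ) : ℝ)) := by
        refine le_trans ?_ hc
        have : V ⊆ ((Icc 1 (2 * N / 2 ^ k)) ×ˢ (Icc 1 (2 ^ (k + 1) * N))).filter
            (fun p => ∃ n : ℕ, p.1 * p.2 = n ^ 2 + 1) := by
          intro p hp
          obtain ⟨h4, h5, h6, h7, h8⟩ := hmem p hp
          rw [mem_filter, mem_product, mem_Icc, mem_Icc]
          exact ⟨⟨⟨h6, h7⟩, ⟨by omega, h5⟩⟩, h8⟩
        exact_mod_cast Finset.card_le_card this
      have hsqrt : Real.sqrt (((2 * N / 2 ^ k : ℕ) : ℝ) * ((2 ^ (k + 1) * N : ℕ) : ℝ)) ≤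
          2 * N := by
        rw [Real.sqrt_le_left (by positivity)]
        have h12 : ((2 * N / 2 ^ k : ℕ) : ℝ) ≤ ((2 * N : ℕ) : ℝ) / ((2 ^ k : ℕ) : ℝ) :=
          Nat.cast_div_le
        calc ((2 * N / 2 ^ k : ℕ) : ℝ) * ((2 ^ (k + 1) * N : ℕ) : ℝ) ≤
            ((2 * N : ℕ) : ℝ) / ((2 ^ k : ℕ) : ℝ) * ((2 ^ (k + 1) * N : ℕ) : ℝ) :=
              mul_le_mul_of_nonneg_right h12 (Nat.cast_nonneg _)
          _ = (2 * N) ^ 2 := by
              push_cast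
              have : (2 : ℝ) ^ k ≠ 0 := by positivity
              field_simp
              ring
      calc ∑ p ∈ V, 1 / (max p.1 p.2 : ℝ) ≤ ∑ p ∈ V, 1 / ((2 : ℝ) ^ k * N) :=
            Finset.sum_le_sum hterm
        _ = V.card * (1 / ((2 : ℝ) ^ k * N)) := by rw [Finset.sum_const, nsmul_eq_mul]
        _ ≤ (C * (2 * N)) * (1 / ((2 : ℝ) ^ k * N)) := by
            apply mul_le_mul_of_nonneg_right _ (by positivity)
            exact hcard.trans (mul_le_mul_of_nonneg_left hsqrt hC0)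
        _ = 2 * C * (1 / 2) ^ k := by
            rw [one_div_pow]
            have : (2 : ℝ) ^ k ≠ 0 := by positivity
            field_simp
  calc ∑ k ∈ U.image g, ∑ p ∈ U with g p = k, 1 / (max p.1 p.2 : ℝ) ≤
      ∑ k ∈ U.image g, 2 * C * (1 / 2) ^ k := Finset.sum_le_sum cell
    _ = 2 * C * ∑ k ∈ U.image g, (1 / 2 : ℝ) ^ k := by rw [Finset.mul_sum]
    _ ≤ 2 * C * 2 := by
        apply mul_le_mul_of_nonneg_left _ (by positivity)
        exact sum_le_hasSum _ (fun i _ => by positivity) hasSum_geometric_two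

open scoped Classical in
lemma tail (h3 : S_SCNT) : ∃ C : ℝ, 0 ≤ C ∧ ∀ N : ℕ, 1 ≤ N →
    ∑ p ∈ TP N \ (SP N).erase (1, 1), 1 / (max p.1 p.2 : ℝ) ≤ C := by
  obtain ⟨C, hC0, hC⟩ := tail2 h3
  refine ⟨C + C, by positivity, fun N hN => ?_⟩
  have hsub : TP N \ (SP N).erase (1, 1) ⊆
      (TP N).filter (fun p => N < p.2) ∪ (TP N).filter (fun p => N < p.1) := by
    intro p hp
    rw [Finset.mem_sdiff] at hp
    obtain ⟨h1, h2⟩ := hp
    rw [mem_union, mem_filter, mem_filter]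
    by_contra hcon
    push Not at hcon
    obtain ⟨h3, h4⟩ := hcon
    have h5 := h3 h1
    have h6 := h4 h1
    apply h2
    rw [mem_erase]
    refine ⟨fun h => one_notMem_TP N (h ▸ h1), ?_⟩
    rw [mem_SP]
    rw [mem_TP] at h1
    obtain ⟨n, hn1, hn2, hn3⟩ := h1
    have h7 : 1 ≤ p.1 := Nat.one_le_iff_ne_zero.2 (by rintro h; rw [h] at hn3; omega)
    have h8 : 1 ≤ p.2 := Nat.one_le_iff_ne_zero.2 (by rintro h; rw [h] at hn3; omega)
    exact ⟨h7, h6, h8, h5, n, hn3⟩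
  have hswap : ∑ p ∈ (TP N).filter (fun p => N < p.1), 1 / (max p.1 p.2 : ℝ) =
      ∑ p ∈ (TP N).filter (fun p => N < p.2), 1 / (max p.1 p.2 : ℝ) := by
    refine Finset.sum_nbij' Prod.swap Prod.swap ?_ ?_ ?_ ?_ ?_
    · intro p hp
      rw [mem_filter, mem_TP] at hp ⊢
      obtain ⟨⟨n, h1, h2, h3⟩, h4⟩ := hp
      exact ⟨⟨n, h1, h2, by rw [← h3]; exact Nat.mul_comm _ _⟩, h4⟩
    · intro p hp
      rw [mem_filter, mem_TP] at hp ⊢
      obtain ⟨⟨n, h1, h2, h3⟩, h4⟩ := hp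
      exact ⟨⟨n, h1, h2, by rw [← h3]; exact Nat.mul_comm _ _⟩, h4⟩
    · intro p _; rfl
    · intro p _; rfl
    · intro p _
      rw [max_comm]
      rfl
  calc ∑ p ∈ TP N \ (SP N).erase (1, 1), 1 / (max p.1 p.2 : ℝ) ≤
      ∑ p ∈ (TP N).filter (fun p => N < p.2) ∪ (TP N).filter (fun p => N < p.1),
        1 / (max p.1 p.2 : ℝ) :=
        Finset.sum_le_sum_of_subset_of_nonneg hsub (fun p _ _ => by positivity)
    _ ≤ ∑ p ∈ (TP N).filter (fun p => N < p.2), 1 / (max p.1 p.2 : ℝ) +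
        ∑ p ∈ (TP N).filter (fun p => N < p.1), 1 / (max p.1 p.2 : ℝ) := by
        rw [← Finset.sum_union_inter]
        exact le_add_of_nonneg_right (Finset.sum_nonneg fun p _ => by positivity)
    _ ≤ C + C := by
        rw [hswap]
        exact add_le_add (hC N hN) (hC N hN)

open scoped Classical in
lemma part2 (h1 : S_FIN1) (h3 : S_SCNT) :
    Tendsto (fun N : ℕ => (∑ n ∈ Icc 1 N, (lam (n ^ 2 + 1) : ℝ) * wn n) / Real.log N)
      atTop (nhds 0) := by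
  obtain ⟨C, hC0, hC⟩ := tail h3
  set B : ℕ → ℝ := fun N => ∑ p ∈ SP N, (lam p.1 : ℝ) ^ 1 * lam p.2 / (max p.1 p.2 : ℝ) with hB
  have hB0 : Tendsto (fun N => B N / Real.log N) atTop (nhds 0) := h1 1
  have hlogt : Tendsto (fun N : ℕ => Real.log N) atTop atTop :=
    Real.tendsto_log_atTop.comp tendsto_natCast_atTop_atTop
  have hc0 : Tendsto (fun N : ℕ => (1 + C) / Real.log N) atTop (nhds 0) :=
    hlogt.const_div_atTop _
  have hsum : Tendsto (fun N : ℕ => |B N / Real.log N| + (1 + C) / Real.log N) atTop (nhds 0) := by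
    have := (hB0.abs).add hc0
    simpa using this
  refine squeeze_zero_norm' ?_ hsum
  filter_upwards [eventually_ge_atTop 2] with N hN
  have hlog : 0 < Real.log N := Real.log_pos (by exact_mod_cast hN)
  rw [Real.norm_eq_abs, abs_div, abs_div, abs_of_pos hlog, ← add_div]
  apply div_le_div_of_nonneg_right _ hlog.le
  have e1 : ∑ n ∈ Icc 1 N, (lam (n ^ 2 + 1) : ℝ) * wn n =
      ∑ p ∈ TP N, (lam p.1 : ℝ) * lam p.2 / (max p.1 p.2 : ℝ) := by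
    rw [← sum_TP N (fun a b => (lam a : ℝ) * lam b / (max a b : ℝ))]
    refine Finset.sum_congr rfl fun n _ => ?_
    unfold wn
    rw [Finset.mul_sum]
    refine Finset.sum_congr rfl fun d hd => ?_
    have hd1 := Nat.dvd_of_mem_divisors hd
    have hd2 : d ≠ 0 := by
      rintro rfl
      have := Nat.eq_zero_of_zero_dvd hd1
      omega
    have hd3 : (n ^ 2 + 1) / d ≠ 0 := by
      intro h
      have := Nat.mul_div_cancel' hd1
      rw [h] at this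
      omega
    have hl : lam (n ^ 2 + 1) = lam d * lam ((n ^ 2 + 1) / d) := by
      rw [← lam_mul hd2 hd3, Nat.mul_div_cancel' hd1]
    rw [hl]
    push_cast
    ring
  have hsplit := Finset.sum_sdiff (SP_sub N)
    (f := fun p : ℕ × ℕ => (lam p.1 : ℝ) * lam p.2 / (max p.1 p.2 : ℝ))
  have h11 : ((1, 1) : ℕ × ℕ) ∈ SP N := by
    rw [mem_SP]
    exact ⟨le_rfl, by simp only; omega, le_rfl, by simp only; omega, 0, by norm_num⟩
  have hera := Finset.add_sum_erase (SP N)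
    (fun p : ℕ × ℕ => (lam p.1 : ℝ) * lam p.2 / (max p.1 p.2 : ℝ)) h11
  have hBN : B N = ∑ p ∈ SP N, (lam p.1 : ℝ) * lam p.2 / (max p.1 p.2 : ℝ) := by
    simp only [hB, pow_one]
  have hl1 : lam 1 = 1 := by
    unfold lam
    simp
  have hv : ((lam 1 : ℝ) * lam 1 / (max ((1 : ℕ) : ℝ) ((1 : ℕ) : ℝ))) = 1 := by
    rw [hl1]
    norm_num
  have habs : |∑ p ∈ TP N \ (SP N).erase (1, 1), (lam p.1 : ℝ) * lam p.2 / (max p.1 p.2 : ℝ)| ≤
      C := by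
    refine le_trans (Finset.abs_sum_le_sum_abs _ _) (le_trans (Finset.sum_le_sum ?_)
      (hC N (by omega)))
    intro p _
    rw [abs_div, abs_mul]
    have hp1 : |(lam p.1 : ℝ)| = 1 := by rcases lam_pm p.1 with h | h <;> rw [h] <;> norm_num
    have hp2 : |(lam p.2 : ℝ)| = 1 := by rcases lam_pm p.2 with h | h <;> rw [h] <;> norm_num
    rw [hp1, hp2, one_mul, abs_of_nonneg (by positivity)]
  rw [e1, ← hsplit]
  simp only at hera
  rw [hv] at hera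
  have h20 : ∑ p ∈ (SP N).erase (1, 1), (lam p.1 : ℝ) * lam p.2 / (max p.1 p.2 : ℝ) =
      B N - 1 := by
    rw [hBN, ← hera]
    ring
  rw [h20]
  calc |∑ p ∈ TP N \ (SP N).erase (1, 1), (lam p.1 : ℝ) * lam p.2 / (max p.1 p.2 : ℝ) +
        (B N - 1)| ≤ |∑ p ∈ TP N \ (SP N).erase (1, 1),
          (lam p.1 : ℝ) * lam p.2 / (max p.1 p.2 : ℝ)| + |B N - 1| := abs_add_le _ _
    _ ≤ C + (|B N| + 1) := by
        apply add_le_add habs
        calc |B N - 1| ≤ |B N| + |1| := abs_sub _ _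
          _ = |B N| + 1 := by norm_num
    _ = |B N| + (1 + C) := by ring

open scoped Classical in
lemma part3 (h2 : S_SLOW) :
    ∃ c : ℝ, 0 < c ∧ ∀ N : ℕ, 2 ≤ N → c * Real.log N ≤ ∑ n ∈ Icc 1 N, wn n := by
  obtain ⟨c, hc, hW⟩ := h2
  refine ⟨c / 3, by positivity, fun N hN => ?_⟩
  have e1 : ∑ n ∈ Icc 1 N, wn n = ∑ p ∈ TP N, 1 / (max p.1 p.2 : ℝ) := by
    rw [← sum_TP N (fun a b => 1 / (max a b : ℝ))]
    refine Finset.sum_congr rfl fun n _ => ?_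
    unfold wn
    refine Finset.sum_congr rfl fun d _ => ?_
    rw [Nat.cast_max]
  have h11 : ((1, 1) : ℕ × ℕ) ∈ SP N := by
    rw [mem_SP]
    exact ⟨le_rfl, by simp only; omega, le_rfl, by simp only; omega, 0, by norm_num⟩
  have hera := Finset.add_sum_erase (SP N)
    (fun p : ℕ × ℕ => 1 / (max p.1 p.2 : ℝ)) h11
  have hv : (1 / (max ((1 : ℕ) : ℝ) ((1 : ℕ) : ℝ))) = 1 := by norm_num
  simp only at hera
  rw [hv] at hera
  have hle : ∑ p ∈ (SP N).erase (1, 1), 1 / (max p.1 p.2 : ℝ) ≤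
      ∑ p ∈ TP N, 1 / (max p.1 p.2 : ℝ) :=
    Finset.sum_le_sum_of_subset_of_nonneg (SP_sub N) (fun p _ _ => by positivity)
  have h12 : ((1, 2) : ℕ × ℕ) ∈ TP N := by
    rw [mem_TP]
    exact ⟨1, le_rfl, by omega, by norm_num⟩
  have hhalf : (1 / (max ((1 : ℕ) : ℝ) ((2 : ℕ) : ℝ))) ≤ ∑ p ∈ TP N, 1 / (max p.1 p.2 : ℝ) :=
    Finset.single_le_sum (f := fun p : ℕ × ℕ => 1 / (max p.1 p.2 : ℝ))
      (fun p _ => by positivity) h12
  have hv2 : (1 / (max ((1 : ℕ) : ℝ) ((2 : ℕ) : ℝ))) = 1 / 2 := by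
    rw [max_eq_right (by norm_num)]
    norm_num
  rw [hv2] at hhalf
  have := hW N hN
  rw [e1]
  linarith

open scoped Classical in
theorem final (h1 : S_FIN1) (h2 : S_SLOW) (h3 : S_SCNT) : S_FINAL :=
  ⟨part1 h1 h2, part2 h1 h3, part3 h2⟩

end Pool.Agent.W327.ECFinal
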